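import Mathlib
import Pool.Agent.Helper64.HG.Stmts

set_option autoImplicit false

namespace Pool.Agent.Helper64.HG

lemma intv_seq (m : ℕ) (p : ℕ → ℤ)
    (h1 : ∀ i, i + 1 < m → p (i + 1) = p i + 1 ∨ p i = p (i + 1) + 1)
    (h2 : ∀ i j, i < j → j < m → p i ≠ p j) :
    (∀ i, i < m → p i = p 0 + i) ∨ (∀ i, i < m → p i = p 0 - i) := by
  rcases Nat.lt_or_ge 1 m with hm | hm
  · rcases h1 0 (by omega) with h0 | h0
    · left
      have key : ∀ i, i + 1 < m → p i = p 0 + i ∧ p (i + 1) = p 0 + ((i + 1 : ℕ) : ℤ) := by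
        intro i
        induction i with
        | zero =>
          intro _
          refine ⟨by simp, ?_⟩
          simpa using h0
        | succ i ih =>
          intro hi
          obtain ⟨ih1, ih2⟩ := ih (by omega)
          refine ⟨ih2, ?_⟩
          rcases h1 (i + 1) hi with h3 | h3
          · rw [h3, ih2]
            push_cast
            ring
          · exfalso
            refine h2 i (i + 1 + 1) (by omega) hi ?_
            rw [ih1]
            rw [ih2] at h3
            push_cast at h3
            linarith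
      intro i hi
      rcases Nat.eq_zero_or_pos i with hi0 | hi0
      · rw [hi0]; simp
      · have h3 := (key (i - 1) (by omega)).2
        rwa [show i - 1 + 1 = i by omega] at h3
    · right
      have key : ∀ i, i + 1 < m → p i = p 0 - i ∧ p (i + 1) = p 0 - ((i + 1 : ℕ) : ℤ) := by
        intro i
        induction i with
        | zero =>
          intro _
          refine ⟨by simp, ?_⟩
          rw [h0]
          push_cast
          ring
        | succ i ih =>
          intro hi
          obtain ⟨ih1, ih2⟩ := ih (by omega)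
          refine ⟨ih2, ?_⟩
          rcases h1 (i + 1) hi with h3 | h3
          · exfalso
            refine h2 i (i + 1 + 1) (by omega) hi ?_
            rw [ih1, h3, ih2]
            push_cast
            ring
          · rw [ih2] at h3
            push_cast at h3 ⊢
            linarith
      intro i hi
      rcases Nat.eq_zero_or_pos i with hi0 | hi0
      · rw [hi0]; simp
      · have h3 := (key (i - 1) (by omega)).2
        rwa [show i - 1 + 1 = i by omega] at h3
  · left
    intro i hi
    rw [show i = 0 by omega]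
    simp

theorem st_INTV : ST_INTV := by
  classical
  intro N T q pos hT hq hpos hcons
  set Q : Finset ℝ := (hT.image q).toFinset with hQ
  have hQm : ∀ x, x ∈ Q ↔ ∃ a ∈ T, q a = x := by
    intro x
    rw [hQ, Set.Finite.mem_toFinset, Set.mem_image]
  set m := Q.card with hm
  set e := Q.orderEmbOfFin hm.symm with he
  have ht : ∀ i : Fin m, ∃ a ∈ T, q a = e i := fun i =>
    (hQm _).1 (Finset.orderEmbOfFin_mem Q hm.symm i)
  choose t ht1 ht2 using ht
  have hsurj : ∀ a ∈ T, ∃ i, t i = a := by
    intro a ha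
    have h1 : q a ∈ Set.range (Q.orderEmbOfFin hm.symm) := by
      rw [Finset.range_orderEmbOfFin]
      exact (hQm _).2 ⟨a, ha, rfl⟩
    obtain ⟨i, hi⟩ := h1
    exact ⟨i, hq (ht1 i) ha ((ht2 i).trans hi)⟩
  have hlt : ∀ i j, q (t i) < q (t j) ↔ i < j := by
    intro i j
    rw [ht2, ht2]
    exact e.lt_iff_lt
  set p : ℕ → ℤ := fun i => if h : i < m then pos (t ⟨i, h⟩) else 0 with hp
  have hpv : ∀ i (h : i < m), p i = pos (t ⟨i, h⟩) := by
    intro i h
    rw [hp]
    simp only [dif_pos h]
  have h1 : ∀ i, i + 1 < m → p (i + 1) = p i + 1 ∨ p i = p (i + 1) + 1 := by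
    intro i hi
    rw [hpv _ hi, hpv i (by omega)]
    refine hcons _ (ht1 _) _ (ht1 _) ?_ ?_
    · intro h
      have h3 : (⟨i, by omega⟩ : Fin m) < ⟨i + 1, hi⟩ := Nat.lt_succ_self i
      have h4 := (hlt _ _).2 h3
      rw [h] at h4
      exact lt_irrefl _ h4
    · intro n hn
      obtain ⟨k, rfl⟩ := hsurj n hn
      rw [hlt, hlt, hlt, hlt]
      simp only [Fin.lt_def]
      omega
  have h2 : ∀ i j, i < j → j < m → p i ≠ p j := by
    intro i j hij hj h
    rw [hpv j hj, hpv i (by omega)] at h
    have h3 := hpos (ht1 _) (ht1 _) h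
    have h4 : (⟨i, by omega⟩ : Fin m) < ⟨j, hj⟩ := hij
    have h5 := (hlt _ _).2 h4
    rw [h3] at h5
    exact lt_irrefl _ h5
  have hpt : ∀ i : Fin m, pos (t i) = p i := fun i => (hpv i.1 i.2).symm
  rcases intv_seq m p h1 h2 with h3 | h3
  · have h4 : ∀ i : Fin m, pos (t i) = p 0 + (i.1 : ℤ) := fun i => by rw [hpt, h3 i.1 i.2]
    refine ⟨Or.inl ?_, ?_⟩
    · intro a ha b hb
      obtain ⟨i, rfl⟩ := hsurj a ha
      obtain ⟨j, rfl⟩ := hsurj b hb
      rw [hlt, h4, h4, Fin.lt_def]
      omega
    · intro a ha b hb k hk1 hk2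
      obtain ⟨i, rfl⟩ := hsurj a ha
      obtain ⟨j, rfl⟩ := hsurj b hb
      rw [h4] at hk1 hk2
      have hi := i.2
      have hj := j.2
      refine ⟨t ⟨(k - p 0).toNat, by omega⟩, ht1 _, ?_⟩
      rw [h4]
      dsimp only
      omega
  · have h4 : ∀ i : Fin m, pos (t i) = p 0 - (i.1 : ℤ) := fun i => by rw [hpt, h3 i.1 i.2]
    refine ⟨Or.inr ?_, ?_⟩
    · intro a ha b hb
      obtain ⟨i, rfl⟩ := hsurj a ha
      obtain ⟨j, rfl⟩ := hsurj b hb
      rw [hlt, h4, h4, Fin.lt_def]
      omega
    · intro a ha b hb k hk1 hk2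
      obtain ⟨i, rfl⟩ := hsurj a ha
      obtain ⟨j, rfl⟩ := hsurj b hb
      rw [h4] at hk1 hk2
      have hi := i.2
      have hj := j.2
      refine ⟨t ⟨(p 0 - k).toNat, by omega⟩, ht1 _, ?_⟩
      rw [h4]
      dsimp only
      omega

end Pool.Agent.Helper64.HG
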