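import Mathlib
import Pool.Agent.Helper64.HG.Stmts

set_option autoImplicit false

namespace Pool.Agent.Helper64.HG

lemma peel_ovl_comm {V : Type} (l r : V → ℝ) (u v : V) : Ovl l r u v ↔ Ovl l r v u := by
  unfold Ovl
  exact Or.comm

lemma peel_ext {V : Type} (G : SimpleGraph V) (x : V) (l' r' : ({x}ᶜ : Set V) → ℝ)
    (hm : Model (G.induce {x}ᶜ) l' r') (s t : ℝ) (hst : s < t)
    (hs : ∀ v, s ≠ l' v ∧ s ≠ r' v) (ht : ∀ v, t ≠ l' v ∧ t ≠ r' v)
    (hadj : ∀ v : ({x}ᶜ : Set V), G.Adj x v.1 ↔
      ((s < l' v ∧ l' v < t ∧ t < r' v) ∨ (l' v < s ∧ s < r' v ∧ r' v < t))) : Circ G := by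
  classical
  have hmem : ∀ v, v ≠ x → v ∈ ({x}ᶜ : Set V) := fun v hv => hv
  set l : V → ℝ := fun v => if h : v = x then s else l' ⟨v, hmem v h⟩ with hl
  set r : V → ℝ := fun v => if h : v = x then t else r' ⟨v, hmem v h⟩ with hr
  have hlx : l x = s := dif_pos rfl
  have hrx : r x = t := dif_pos rfl
  have hlv : ∀ v (h : v ≠ x), l v = l' ⟨v, hmem v h⟩ := by
    intro v h; rw [hl]; simp only [dif_neg h]
  have hrv : ∀ v (h : v ≠ x), r v = r' ⟨v, hmem v h⟩ := by
    intro v h; rw [hr]; simp only [dif_neg h]
  refine ⟨l, r, ?_, ?_, ?_, ?_, ?_⟩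
  · intro v
    by_cases h : v = x
    · rw [h, hlx, hrx]; exact hst
    · rw [hlv v h, hrv v h]; exact hm.lt _
  · intro u v huv
    by_cases h : u = x
    · by_cases h' : v = x
      · rw [h, h']
      · rw [h, hlx, hlv v h'] at huv
        exact absurd huv (hs _).1
    · by_cases h' : v = x
      · rw [h', hlx, hlv u h] at huv
        exact absurd huv.symm (hs _).1
      · rw [hlv u h, hlv v h'] at huv
        exact congrArg Subtype.val (hm.injl huv)
  · intro u v huv
    by_cases h : u = x
    · by_cases h' : v = x
      · rw [h, h']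
      · rw [h, hrx, hrv v h'] at huv
        exact absurd huv (ht _).2
    · by_cases h' : v = x
      · rw [h', hrx, hrv u h] at huv
        exact absurd huv.symm (ht _).2
      · rw [hrv u h, hrv v h'] at huv
        exact congrArg Subtype.val (hm.injr huv)
  · intro u v
    by_cases h : u = x
    · by_cases h' : v = x
      · rw [h, h', hlx, hrx]; exact hst.ne
      · rw [h, hlx, hrv v h']
        exact (hs _).2
    · by_cases h' : v = x
      · rw [h', hrx, hlv u h]
        exact (ht _).1.symm
      · rw [hlv u h, hrv v h']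
        exact hm.ne _ _
  · have hxv : ∀ v, v ≠ x → (G.Adj x v ↔ Ovl l r x v) := by
      intro v h
      unfold Ovl
      rw [hlx, hrx, hlv v h, hrv v h]
      exact hadj ⟨v, hmem v h⟩
    intro u v
    by_cases h : u = x
    · by_cases h' : v = x
      · rw [h, h']
        constructor
        · intro h2
          exact absurd h2 (G.loopless.irrefl x)
        · rintro (⟨h2, -, -⟩ | ⟨h2, -, -⟩)
          · exact absurd h2 (lt_irrefl _)
          · exact absurd h2 (lt_irrefl _)
      · rw [h]; exact hxv v h'
    · by_cases h' : v = x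
      · rw [h', G.adj_comm, peel_ovl_comm]
        exact hxv u h
      · unfold Ovl
        rw [hlv u h, hlv v h', hrv u h, hrv v h']
        exact hm.adj ⟨u, hmem u h⟩ ⟨v, hmem v h'⟩

theorem st_PEEL : ST_PEEL := by
  classical
  intro V _ G x huniq ⟨l', r', hm⟩
  by_cases hex : ∃ a, G.Adj x a
  · obtain ⟨a, ha⟩ := hex
    have hax : a ≠ x := fun h => G.loopless.irrefl x (by rw [h] at ha; exact ha)
    set a' : ({x}ᶜ : Set V) := ⟨a, hax⟩ with ha'
    set F : Set ℝ := (Set.range l' ∪ Set.range r') \ {l' a'} with hF
    have hFf : F.Finite := ((Set.finite_range l').union (Set.finite_range r')).sdiff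
    have hopen : IsOpen Fᶜ := hFf.isClosed.isOpen_compl
    have hmemF : l' a' ∈ Fᶜ := fun h => h.2 rfl
    obtain ⟨δ, hδ, hball⟩ := Metric.isOpen_iff.1 hopen _ hmemF
    have hdist : ∀ y, (y ∈ Set.range l' ∨ y ∈ Set.range r') → y ≠ l' a' →
        (y < l' a' - δ / 2 ∨ l' a' + δ / 2 < y) := by
      intro y hy hne
      by_contra hcon
      push Not at hcon
      have h1 : y ∈ Metric.ball (l' a') δ := by
        rw [Metric.mem_ball, Real.dist_eq, abs_lt]
        constructor <;> linarith
      exact hball h1 ⟨hy, hne⟩
    have hl0 : ∀ v, v ≠ a' → (l' v < l' a' - δ / 2 ∨ l' a' + δ / 2 < l' v) := fun v hv =>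
      hdist _ (Or.inl ⟨v, rfl⟩) (fun h => hv (hm.injl h))
    have hr0 : ∀ v, (r' v < l' a' - δ / 2 ∨ l' a' + δ / 2 < r' v) := fun v =>
      hdist _ (Or.inr ⟨v, rfl⟩) (fun h => hm.ne a' v h.symm)
    have hra : l' a' + δ / 2 < r' a' := by
      rcases hr0 a' with h | h
      · have := hm.lt a'
        linarith
      · exact h
    refine peel_ext G x l' r' hm (l' a' - δ / 2) (l' a' + δ / 2) (by linarith) ?_ ?_ ?_
    · intro v
      refine ⟨?_, ?_⟩
      · by_cases hv : v = a'
        · rw [hv]; intro h; linarith
        · rcases hl0 v hv with h | h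
          · exact h.ne'
          · intro h2; linarith
      · rcases hr0 v with h | h
        · exact h.ne'
        · intro h2; linarith
    · intro v
      refine ⟨?_, ?_⟩
      · by_cases hv : v = a'
        · rw [hv]; intro h; linarith
        · rcases hl0 v hv with h | h
          · intro h2; linarith
          · exact h.ne
      · rcases hr0 v with h | h
        · intro h2; linarith
        · exact h.ne
    · intro v
      by_cases hv : v = a'
      · rw [hv]
        constructor
        · intro _
          left
          exact ⟨by linarith, by linarith, hra⟩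
        · intro _
          exact ha
      · constructor
        · intro h
          exact absurd (Subtype.ext (huniq v.1 a h ha)) hv
        · intro h
          exfalso
          have h1 := hl0 v hv
          have h2 := hr0 v
          rcases h with ⟨h3, h4, h5⟩ | ⟨h3, h4, h5⟩
          · rcases h1 with h1 | h1 <;> linarith
          · rcases h2 with h2 | h2 <;> linarith
  · push Not at hex
    obtain ⟨M, hM⟩ := ((Set.finite_range l').union (Set.finite_range r')).bddAbove
    have hlM : ∀ v, l' v ≤ M := fun v => hM (Or.inl ⟨v, rfl⟩)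
    have hrM : ∀ v, r' v ≤ M := fun v => hM (Or.inr ⟨v, rfl⟩)
    refine peel_ext G x l' r' hm (M + 1) (M + 2) (by linarith) ?_ ?_ ?_
    · intro v
      have h1 := hlM v
      have h2 := hrM v
      exact ⟨fun h => by linarith, fun h => by linarith⟩
    · intro v
      have h1 := hlM v
      have h2 := hrM v
      exact ⟨fun h => by linarith, fun h => by linarith⟩
    · intro v
      have h1 := hlM v
      have h2 := hrM v
      constructor
      · intro h
        exact absurd h (hex v.1)
      · rintro (⟨h3, h4, h5⟩ | ⟨h3, h4, h5⟩)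
        · exfalso; linarith
        · exfalso; linarith

end Pool.Agent.Helper64.HG
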